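import Pool.Agent.N176.SH.Stm

set_option autoImplicit false

/-! # SH/OKP: the shifts of the pairs satisfy the conditions -/

namespace Pool.Agent.N372.SH

open Pool.Agent.N176.SH

lemma two_pow_base (a : ℕ) (ha : 2 ≤ a) : 2 * (a - 1) ^ a ≤ a ^ a := by
  obtain ⟨c, rfl⟩ : ∃ c, a = c + 1 := ⟨a - 1, by omega⟩
  have hc : 1 ≤ c := by omega
  simp only [Nat.add_sub_cancel]
  have hc' : (0 : ℝ) < c := by exact_mod_cast hc
  have h1 := one_add_mul_le_pow (a := 1 / (c : ℝ)) (by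
    have : 0 < 1 / (c : ℝ) := by positivity
    linarith) (c + 1)
  have h2 : (1 + 1 / (c : ℝ)) ^ (c + 1) = ((c : ℝ) + 1) ^ (c + 1) / (c : ℝ) ^ (c + 1) := by
    rw [← div_pow]
    congr 1
    field_simp
  rw [h2, le_div_iff₀ (by positivity)] at h1
  have h3 : (2 : ℝ) ≤ 1 + ((c + 1 : ℕ) : ℝ) * (1 / (c : ℝ)) := by
    have : (1 : ℝ) ≤ ((c + 1 : ℕ) : ℝ) * (1 / (c : ℝ)) := by
      rw [mul_one_div, le_div_iff₀ hc']
      push_cast
      linarith
    linarith
  have h4 : (2 : ℝ) * (c : ℝ) ^ (c + 1) ≤ ((c : ℝ) + 1) ^ (c + 1) :=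
    le_trans (mul_le_mul_of_nonneg_right h3 (by positivity)) h1
  exact_mod_cast h4

lemma base2 (a : ℕ) (ha : 2 ≤ a) : (a - 1) ^ (a * a) * a ≤ a ^ (a * a) := by
  have h1 := Nat.pow_le_pow_left (two_pow_base a ha) a
  rw [mul_pow, ← pow_mul, ← pow_mul] at h1
  have h2 : a ≤ 2 ^ a := a.lt_two_pow_self.le
  calc (a - 1) ^ (a * a) * a ≤ (a - 1) ^ (a * a) * 2 ^ a := Nat.mul_le_mul_left _ h2
    _ = 2 ^ a * (a - 1) ^ (a * a) := by ring
    _ ≤ a ^ (a * a) := h1

lemma szl (a A p : ℕ) (ha : 2 ≤ a) (hA : A = 64 * (a * a)) (hp : A ≤ p) :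
    2 * (a - 1) ^ p * a ^ (2 * (p / A) + 1) ≤ a ^ p := by
  have hApos : 0 < A := by rw [hA]; positivity
  set t := p / A with ht
  have ht1 : 1 ≤ t := (Nat.le_div_iff_mul_le hApos).2 (by simpa using hp)
  have htp : A * t ≤ p := Nat.mul_div_le p A
  obtain ⟨r, hr⟩ : ∃ r, p = a * a * (64 * t) + r := ⟨p - a * a * (64 * t), by
    have : a * a * (64 * t) = A * t := by rw [hA]; ring
    omega⟩
  have h1 : ((a - 1) ^ (a * a) * a) ^ (64 * t) ≤ (a ^ (a * a)) ^ (64 * t) :=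
    Nat.pow_le_pow_left (base2 a ha) _
  rw [mul_pow, ← pow_mul, ← pow_mul] at h1
  have h2 : 2 * a ^ (2 * t + 1) ≤ a ^ (64 * t) := by
    calc 2 * a ^ (2 * t + 1) ≤ a * a ^ (2 * t + 1) := Nat.mul_le_mul_right _ ha
      _ = a ^ (2 * t + 2) := by ring
      _ ≤ a ^ (64 * t) := Nat.pow_le_pow_right (by omega) (by omega)
  calc 2 * (a - 1) ^ p * a ^ (2 * t + 1) = (a - 1) ^ p * (2 * a ^ (2 * t + 1)) := by ring
    _ ≤ (a - 1) ^ p * a ^ (64 * t) := Nat.mul_le_mul_left _ h2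
    _ = ((a - 1) ^ (a * a * (64 * t)) * a ^ (64 * t)) * (a - 1) ^ r := by
        rw [hr, pow_add]; ring
    _ ≤ a ^ (a * a * (64 * t)) * a ^ r :=
        Nat.mul_le_mul h1 (Nat.pow_le_pow_left (Nat.sub_le _ _) _)
    _ = a ^ p := by rw [hr, pow_add]

lemma pow_sub_bound (x y : ℝ) (hy : 0 ≤ y) (hxy : y ≤ x) (d : ℕ) :
    x ^ d * (x - y) ≤ x ^ (d + 1) - y ^ (d + 1) := by
  have h1 : y ^ d ≤ x ^ d := pow_le_pow_left₀ hy hxy d
  have h2 : y ^ (d + 1) = y ^ d * y := pow_succ _ _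
  have h3 : x ^ (d + 1) = x ^ d * x := pow_succ _ _
  rw [h2, h3]
  nlinarith

theorem okp : S_OKP := by
  intro a b hb1 hba
  have ha2 : 2 ≤ a := by
    have : (2 : ℤ) ≤ a := by linarith
    exact_mod_cast this
  set B : ℕ := b.natAbs with hB
  have hBabs : |b| = (B : ℤ) := by rw [hB]; exact Int.abs_eq_natAbs b
  have hB1 : 1 ≤ B := by
    rw [hBabs] at hb1
    exact_mod_cast hb1
  have hBa : B < a := by
    rw [hBabs] at hba
    exact_mod_cast hba
  have hBR1 : (1 : ℝ) ≤ B := by exact_mod_cast hB1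
  have hBRa : (B : ℝ) + 1 ≤ a := by exact_mod_cast hBa
  have haR : (2 : ℝ) ≤ a := by exact_mod_cast ha2
  -- the formula of cc
  have hpos : 0 < b → ∀ p, cc a b p = 1 - ⌈(B : ℝ) ^ p / ((a : ℝ) - B)⌉ := by
    intro h p
    have e : (b : ℝ) = (B : ℝ) := by
      have : b = (B : ℤ) := by rw [← hBabs, abs_of_pos h]
      rw [this]
      simp
    unfold cc
    rw [if_pos h, e]
  have hneg : ¬ 0 < b → ∀ p, cc a b p = 1 + ⌊(B : ℝ) ^ p / ((a : ℝ) + B)⌋ := by
    intro h p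
    have e : (b : ℝ) = -(B : ℝ) := by
      have h' : b ≤ 0 := not_lt.1 h
      have : b = -(B : ℤ) := by rw [← hBabs, abs_of_nonpos h', neg_neg]
      rw [this]
      simp
    unfold cc
    rw [if_neg h, e]
    simp
  refine ⟨64 * (a * a), ha2, by nlinarith, ?_, ?_⟩
  · intro p hp
    have h1 := szl a (64 * (a * a)) p ha2 rfl hp
    have h2 : |cc a b p| ≤ 2 * ((a - 1 : ℕ) : ℤ) ^ p := by
      have hBp : (1 : ℤ) ≤ (B : ℤ) ^ p := one_le_pow₀ (by exact_mod_cast hB1)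
      have hBp2 : (B : ℤ) ^ p ≤ ((a - 1 : ℕ) : ℤ) ^ p :=
        pow_le_pow_left₀ (by positivity) (by exact_mod_cast (by omega : B ≤ a - 1)) p
      by_cases h : 0 < b
      · rw [hpos h p]
        have h3 : ⌈(B : ℝ) ^ p / ((a : ℝ) - B)⌉ ≤ (B : ℤ) ^ p := by
          rw [Int.ceil_le]
          push_cast
          exact div_le_self (by positivity) (by linarith)
        have h4 : 0 < ⌈(B : ℝ) ^ p / ((a : ℝ) - B)⌉ := by
          rw [Int.ceil_pos]
          have : 0 < (a : ℝ) - B := by linarith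
          positivity
        rw [abs_le]
        constructor <;> linarith
      · rw [hneg h p]
        have h3 : ⌊(B : ℝ) ^ p / ((a : ℝ) + B)⌋ ≤ (B : ℤ) ^ p := by
          have h5 : (⌊(B : ℝ) ^ p / ((a : ℝ) + B)⌋ : ℝ) ≤ (B : ℝ) ^ p :=
            (Int.floor_le _).trans (div_le_self (by positivity) (by linarith))
          exact_mod_cast h5
        have h4 : 0 ≤ ⌊(B : ℝ) ^ p / ((a : ℝ) + B)⌋ := Int.floor_nonneg.2 (by positivity)
        rw [abs_le]
        constructor <;> linarith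
    have h3 : (2 * ((a - 1 : ℕ) : ℤ) ^ p) * (a : ℤ) ^ (2 * (p / (64 * (a * a))) + 1) ≤
        (a : ℤ) ^ p := by exact_mod_cast h1
    exact (mul_le_mul_of_nonneg_right h2 (by positivity)).trans h3
  · by_cases hBone : B = 1
    · by_cases h : 0 < b
      · left
        intro p
        rw [hpos h p, hBone]
        have : ⌈((1 : ℕ) : ℝ) ^ p / ((a : ℝ) - ((1 : ℕ) : ℝ))⌉ = 1 := by
          rw [Int.ceil_eq_iff]
          have h1 : (0 : ℝ) < (a : ℝ) - 1 := by linarith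
          push_cast
          rw [one_pow]
          constructor
          · simp only [sub_self]
            positivity
          · rw [div_le_one h1]
            linarith
        rw [this]
        ring
      · right; left
        intro p
        rw [hneg h p, hBone]
        have : ⌊((1 : ℕ) : ℝ) ^ p / ((a : ℝ) + ((1 : ℕ) : ℝ))⌋ = 0 := by
          rw [Int.floor_eq_zero_iff]
          push_cast
          rw [one_pow]
          constructor
          · positivity
          · rw [div_lt_one (by linarith)]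
            linarith
        rw [this]
        ring
    · right; right
      have hB2 : 2 ≤ B := by omega
      intro p hp q hq r hr0 hr1 hEq
      obtain ⟨d, hd⟩ : ∃ d, q = p + (d + 1) := ⟨q - p - 1, by omega⟩
      have hqp : q - p = d + 1 := by omega
      rw [hqp] at hr1 hEq
      -- size of the power
      have hBp : 4 * (a * a) ≤ B ^ p := by
        calc 4 * (a * a) ≤ p := by nlinarith
          _ ≤ 2 ^ p := p.lt_two_pow_self.le
          _ ≤ B ^ p := Nat.pow_le_pow_left hB2 p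
      have hBpR : 4 * ((a : ℝ) * a) ≤ (B : ℝ) ^ p := by exact_mod_cast hBp
      have hr0' : (0 : ℝ) ≤ r := by exact_mod_cast hr0
      have hr1' : (r : ℝ) < (a : ℝ) ^ (d + 1) := by exact_mod_cast hr1
      have hEq' : (r : ℝ) + (cc a b q : ℝ) = (a : ℝ) ^ (d + 1) * (cc a b p : ℝ) := by
        exact_mod_cast hEq
      have hsub := pow_sub_bound (a : ℝ) B (by positivity) (by linarith) d
      have had : (1 : ℝ) ≤ (a : ℝ) ^ d := one_le_pow₀ (by linarith)
      have had1 : (a : ℝ) ^ (d + 1) = (a : ℝ) ^ d * a := pow_succ _ _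
      have hBq : (B : ℝ) ^ q = (B : ℝ) ^ p * (B : ℝ) ^ (d + 1) := by rw [hd, pow_add]
      by_cases h : 0 < b
      · rw [hpos h p, hpos h q] at hEq'
        push_cast at hEq'
        have hg : 0 < (a : ℝ) - B := by linarith
        have c1 := Int.le_ceil ((B : ℝ) ^ p / ((a : ℝ) - B))
        have c2 := Int.ceil_lt_add_one ((B : ℝ) ^ q / ((a : ℝ) - B))
        set C1 : ℝ := (⌈(B : ℝ) ^ p / ((a : ℝ) - B)⌉ : ℝ)
        set C2 : ℝ := (⌈(B : ℝ) ^ q / ((a : ℝ) - B)⌉ : ℝ)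
        rw [div_le_iff₀ hg] at c1
        have c2' : (C2 - 1) * ((a : ℝ) - B) < (B : ℝ) ^ q := by
          have : C2 - 1 < (B : ℝ) ^ q / ((a : ℝ) - B) := by linarith
          rwa [lt_div_iff₀ hg] at this
        -- r * g = a^(d+1) (1 - C1) g - (1 - C2) g
        have e1 : (r : ℝ) * ((a : ℝ) - B) =
            (a : ℝ) ^ (d + 1) * ((a : ℝ) - B) - (a : ℝ) ^ (d + 1) * (C1 * ((a : ℝ) - B)) +
              (C2 - 1) * ((a : ℝ) - B) := by
          have : (r : ℝ) = (a : ℝ) ^ (d + 1) * (1 - C1) - (1 - C2) := by linarith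
          rw [this]
          ring
        have e2 : (a : ℝ) ^ (d + 1) * (B : ℝ) ^ p ≤ (a : ℝ) ^ (d + 1) * (C1 * ((a : ℝ) - B)) :=
          mul_le_mul_of_nonneg_left c1 (by positivity)
        have e3 : (B : ℝ) ^ p * ((a : ℝ) ^ d * ((a : ℝ) - B)) ≤
            (B : ℝ) ^ p * ((a : ℝ) ^ (d + 1) - (B : ℝ) ^ (d + 1)) :=
          mul_le_mul_of_nonneg_left hsub (by positivity)
        have e4 : (a : ℝ) ^ (d + 1) * ((a : ℝ) - B) ≤ (B : ℝ) ^ p * ((a : ℝ) ^ d * ((a : ℝ) - B)) := by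
          have : (a : ℝ) ≤ (B : ℝ) ^ p := by nlinarith
          rw [had1]
          have h5 : 0 ≤ (a : ℝ) ^ d * ((a : ℝ) - B) := by positivity
          nlinarith
        have e5 : 0 ≤ (r : ℝ) * ((a : ℝ) - B) := by positivity
        rw [hBq] at c2'
        nlinarith
      · rw [hneg h p, hneg h q] at hEq'
        push_cast at hEq'
        have hg : 0 < (a : ℝ) + B := by linarith
        have c1 := Int.lt_floor_add_one ((B : ℝ) ^ p / ((a : ℝ) + B))
        have c2 := Int.floor_le ((B : ℝ) ^ q / ((a : ℝ) + B))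
        set C1 : ℝ := (⌊(B : ℝ) ^ p / ((a : ℝ) + B)⌋ : ℝ)
        set C2 : ℝ := (⌊(B : ℝ) ^ q / ((a : ℝ) + B)⌋ : ℝ)
        rw [div_lt_iff₀ hg] at c1
        rw [le_div_iff₀ hg] at c2
        have e1 : (r : ℝ) * ((a : ℝ) + B) =
            (a : ℝ) ^ (d + 1) * ((C1 + 1) * ((a : ℝ) + B)) - C2 * ((a : ℝ) + B) -
              ((a : ℝ) + B) := by
          have : (r : ℝ) = (a : ℝ) ^ (d + 1) * (1 + C1) - (1 + C2) := by linarith
          rw [this]
          ring
        have e2 : (a : ℝ) ^ (d + 1) * (B : ℝ) ^ p ≤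
            (a : ℝ) ^ (d + 1) * ((C1 + 1) * ((a : ℝ) + B)) :=
          mul_le_mul_of_nonneg_left c1.le (by positivity)
        have e3 : (B : ℝ) ^ p * ((a : ℝ) ^ d * ((a : ℝ) - B)) ≤
            (B : ℝ) ^ p * ((a : ℝ) ^ (d + 1) - (B : ℝ) ^ (d + 1)) :=
          mul_le_mul_of_nonneg_left hsub (by positivity)
        have e4 : (a : ℝ) ^ d * (4 * ((a : ℝ) * a)) ≤ (B : ℝ) ^ p * ((a : ℝ) ^ d * ((a : ℝ) - B)) := by
          have h5 : (a : ℝ) ^ d * 1 ≤ (a : ℝ) ^ d * ((a : ℝ) - B) :=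
            mul_le_mul_of_nonneg_left (by linarith) (by positivity)
          have h6 : (B : ℝ) ^ p * ((a : ℝ) ^ d * 1) ≤ (B : ℝ) ^ p * ((a : ℝ) ^ d * ((a : ℝ) - B)) :=
            mul_le_mul_of_nonneg_left h5 (by positivity)
          have h7 : (a : ℝ) ^ d * (4 * ((a : ℝ) * a)) ≤ (a : ℝ) ^ d * (B : ℝ) ^ p :=
            mul_le_mul_of_nonneg_left hBpR (by positivity)
          linarith
        have e5 : (r : ℝ) * ((a : ℝ) + B) < (a : ℝ) ^ (d + 1) * ((a : ℝ) + B) :=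
          mul_lt_mul_of_pos_right hr1' hg
        have e6 : (a : ℝ) ^ (d + 1) * ((a : ℝ) + B) ≤ (a : ℝ) ^ d * (2 * ((a : ℝ) * a)) := by
          rw [had1, mul_assoc]
          refine mul_le_mul_of_nonneg_left ?_ (by positivity)
          nlinarith
        have e7 : (a : ℝ) + B ≤ (a : ℝ) ^ d * (2 * ((a : ℝ) * a)) := by
          have h8 : (a : ℝ) + B ≤ 2 * ((a : ℝ) * a) := by nlinarith
          have h9 : 1 * (2 * ((a : ℝ) * a)) ≤ (a : ℝ) ^ d * (2 * ((a : ℝ) * a)) :=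
            mul_le_mul_of_nonneg_right had (by positivity)
          linarith
        rw [hBq] at c2
        nlinarith

end Pool.Agent.N372.SH
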